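import Pool.Agent.Lib_helper80.St.Tab

/-!
Kernel checks, blocks 4 and 5 of ten.
-/

namespace UKL

namespace St

namespace Tab

set_option maxRecDepth 100000

theorem ok4 : allR 11 8192 = true := by decide +kernel

theorem ok5 : allR 11 10240 = true := by decide +kernel

end Tab

end St

end UKL
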