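import Pool.Agent.Lib_helper80.St.Tab

/-!
Kernel checks, blocks 8 and 9 of ten.
-/

namespace UKL

namespace St

namespace Tab

set_option maxRecDepth 100000

theorem ok8 : allR 11 16384 = true := by decide +kernel

theorem ok9 : allR 11 18432 = true := by decide +kernel

end Tab

end St

end UKL
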