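import Mathlib
import Pool.Agent.Lib_helper2.UKL.Words
import Pool.Agent.Lib_helper80.UKL.M1

/-!
# Stopping times, part 1: words produced by finite look-ahead rules, mean length
-/

namespace UKL

namespace St

open Finset

/-- child -/
def ch (j y : ℕ) : ℕ := (2 ^ j * y - 1) / 3

/-- admissible letter: between 1 and 6, applicable, unit child -/
def Adm (j y : ℕ) : Prop := 1 ≤ j ∧ j ≤ 6 ∧ 2 ^ j * y % 3 = 1 ∧ ch j y % 3 ≠ 0

/-- a rule with look-ahead `D` -/
structure Rule (D : ℕ) (r : ℕ → ℕ) : Prop where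
  per : ∀ y t, y % 3 ≠ 0 → r (y + 3 ^ D * t) = r y
  adm : ∀ y, y % 3 ≠ 0 → Adm (r y) y

/-- word of `n` letters produced by a rule -/
def wd (r : ℕ → ℕ) : ℕ → ℕ → List ℕ
  | 0, _ => []
  | n + 1, y => r y :: wd r n (ch (r y) y)

theorem ch_shift {j y : ℕ} (h : 2 ^ j * y % 3 = 1) (e t : ℕ) :
    ch j (y + 3 ^ (e + 1) * t) = ch j y + 3 ^ e * (2 ^ j * t) := by
  unfold ch
  have hc := chL_eq h
  have : 2 ^ j * (y + 3 ^ (e + 1) * t) = 2 ^ j * y + 3 * (3 ^ e * (2 ^ j * t)) := by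
    rw [pow_succ]; ring
  rw [this]
  omega

theorem wd_props {D : ℕ} {r : ℕ → ℕ} (hr : Rule D r) : ∀ (n y : ℕ), y % 3 ≠ 0 →
    (wd r n y).length = n ∧ ok (wd r n y) y ∧ run (wd r n y) y % 3 ≠ 0 ∧
      (wd r n y).sum ≤ 6 * n ∧ ∀ j ∈ wd r n y, 1 ≤ j ∧ j ≤ 6 := by
  intro n
  induction n with
  | zero =>
    intro y hy
    exact ⟨rfl, trivial, hy, by simp [wd], by simp [wd]⟩
  | succ n ih =>
    intro y hy
    obtain ⟨a1, a2, a3, a4⟩ := hr.adm y hy
    obtain ⟨b1, b2, b3, b4, b5⟩ := ih (ch (r y) y) a4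
    refine ⟨by simp [wd, b1], ⟨a1, a3, b2⟩, b3, ?_, ?_⟩
    · simp only [wd, List.sum_cons]; omega
    · intro j hj
      rcases List.mem_cons.1 hj with rfl | hj
      · exact ⟨a1, a2⟩
      · exact b5 j hj

theorem wd_shift {D : ℕ} {r : ℕ → ℕ} (hr : Rule D r) (_hD : 1 ≤ D) : ∀ (n y t : ℕ), y % 3 ≠ 0 →
    wd r n (y + 3 ^ (D + n) * t) = wd r n y := by
  intro n
  induction n with
  | zero => intro y t _; rfl
  | succ n ih =>
    intro y t hy
    obtain ⟨a1, a2, a3, a4⟩ := hr.adm y hy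
    have e1 : r (y + 3 ^ (D + (n + 1)) * t) = r y := by
      rw [pow_add, mul_assoc]; exact hr.per _ _ hy
    simp only [wd]
    rw [e1, show D + (n + 1) = (D + n) + 1 by ring, ch_shift a3, ih _ _ a4]

theorem run_wd_shift {D : ℕ} {r : ℕ → ℕ} (hr : Rule D r) (n y t : ℕ)
    (hy : y % 3 ≠ 0) : run (wd r n y) (y + 3 ^ (D + n) * t)
      = run (wd r n y) y + 3 ^ D * (2 ^ (wd r n y).sum * t) := by
  obtain ⟨a1, a2, _⟩ := wd_props hr n y hy
  have := (run_shift (wd r n y) y D t a2).2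
  rw [a1, add_comm n D] at this
  rw [this]
  ring

/-- sums over a product range -/
theorem sum_range_mul {α : Type*} [AddCommMonoid α] (N : ℕ) (F : ℕ → α) : ∀ q : ℕ,
    ∑ y ∈ range (N * q), F y = ∑ t ∈ range q, ∑ y ∈ range N, F (y + N * t) := by
  intro q
  induction q with
  | zero => simp
  | succ q ih =>
    rw [Nat.mul_succ, Finset.sum_range_add, ih, Finset.sum_range_succ]
    congr 1
    exact Finset.sum_congr rfl fun y _ => by rw [add_comm]

/-- certificate for a look-ahead rule -/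
structure Cert (k Q V3 Hm : ℕ) (r h A : ℕ → ℕ) : Prop where
  hk : 1 ≤ k
  rule : Rule (k + 1) r
  hh : ∀ y, y % 3 ≠ 0 → h y = Q * r y + A (ch (r y) y)
  hHm : ∀ y, y % 3 ≠ 0 → h y ≤ Hm
  ineq : ∀ c, c % 3 ≠ 0 → h c + h (c + 3 ^ k) + h (c + 3 ^ k * 2) ≤ 3 * A c + V3

variable {k Q V3 Hm : ℕ} {r h A : ℕ → ℕ}

/-- mean cost of the rule from a given cylinder -/
theorem mean_cyl (C : Cert k Q V3 Hm r h A) : ∀ (n y0 : ℕ), y0 % 3 ≠ 0 →
    3 * ∑ t ∈ range (3 ^ n), Q * (wd r n (y0 + 3 ^ (k + 1) * t)).sum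
      ≤ 3 ^ n * (3 * h y0 + n * V3) := by
  have hk := C.hk
  intro n
  induction n with
  | zero => intro y0 _; simp [wd]
  | succ n ih =>
    intro y0 hy0
    obtain ⟨a1, a2, a3, a4⟩ := C.rule.adm y0 hy0
    set j := r y0 with hj
    set y' := ch j y0 with hy'
    have hunit : ∀ d, (y' + 3 ^ k * d) % 3 ≠ 0 := by
      intro d
      obtain ⟨k', hk'⟩ : ∃ k', k = k' + 1 := ⟨k - 1, by omega⟩
      rw [hk', pow_succ]
      have : 3 ^ k' * 3 * d = 3 * (3 ^ k' * d) := by ring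
      omega
    set G : ℕ → ℕ := fun t => (wd r n (y' + 3 ^ k * t)).sum with hG
    have hGper : ∀ t, G (t + 3 ^ (n + 1)) = G t := by
      intro t
      simp only [hG]
      have : y' + 3 ^ k * (t + 3 ^ (n + 1)) = (y' + 3 ^ k * t) + 3 ^ ((k + 1) + n) * 1 := by
        rw [show k + 1 + n = k + (n + 1) by ring, pow_add 3 k (n + 1)]; ring
      rw [this, wd_shift C.rule (by omega) n _ 1 (hunit t)]
    have h1 : ∀ t, (wd r (n + 1) (y0 + 3 ^ (k + 1) * t)).sum = j + G (2 ^ j * t + 0) := by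
      intro t
      simp only [wd, List.sum_cons]
      rw [C.rule.per _ _ hy0, ch_shift a3, add_zero]
    simp_rw [h1]
    have h2 := sum_affine (2 ^ j) 0 (coprime_two_pow_three_pow j (n + 1)) G hGper
    have h3 : ∑ t ∈ range (3 ^ (n + 1)), Q * (j + G (2 ^ j * t + 0))
        = 3 ^ (n + 1) * (Q * j) + Q * ∑ t ∈ range (3 ^ (n + 1)), G t := by
      rw [← h2, Finset.mul_sum]
      simp_rw [mul_add]
      rw [Finset.sum_add_distrib, Finset.sum_const, card_range, smul_eq_mul]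
    rw [h3, pow_succ, mul_comm (3 ^ n) 3, sum_range_three_mul, Finset.sum_add_distrib,
      Finset.sum_add_distrib]
    have h4 : ∀ d, 3 * (Q * ∑ t ∈ range (3 ^ n), G (3 * t + d))
        ≤ 3 ^ n * (3 * h (y' + 3 ^ k * d) + n * V3) := by
      intro d
      have := ih (y' + 3 ^ k * d) (hunit d)
      rw [← Finset.mul_sum] at this
      refine le_trans (le_of_eq ?_) this
      congr 2
      refine Finset.sum_congr rfl fun t _ => ?_
      simp only [hG]
      congr 2
      rw [pow_succ]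
      ring
    have h40 := h4 0
    have h41 := h4 1
    have h42 := h4 2
    simp only [add_zero, mul_zero, mul_one] at h40 h41
    have h5 := C.ineq y' a4
    have h6 := C.hh y0 hy0
    rw [← hj, ← hy'] at h6
    rw [h6]
    set X0 := ∑ t ∈ range (3 ^ n), G (3 * t)
    set X1 := ∑ t ∈ range (3 ^ n), G (3 * t + 1)
    set X2 := ∑ t ∈ range (3 ^ n), G (3 * t + 2)
    set P := 3 ^ n
    have h7 : P * (h y' + h (y' + 3 ^ k) + h (y' + 3 ^ k * 2)) ≤ P * (3 * A y' + V3) :=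
      Nat.mul_le_mul_left _ h5
    have e1 : 3 * (3 * P * (Q * j) + Q * (X0 + X1 + X2))
        = 9 * (P * (Q * j)) + (3 * (Q * X0) + 3 * (Q * X1) + 3 * (Q * X2)) := by ring
    have e2 : 3 * P * (3 * (Q * j + A y') + (n + 1) * V3)
        = 9 * (P * (Q * j)) + (3 * (P * (3 * A y' + V3)) + 3 * (P * (n * V3))) := by ring
    rw [e1, e2]
    have e3 : P * (3 * h y' + n * V3) + P * (3 * h (y' + 3 ^ k) + n * V3)
        + P * (3 * h (y' + 3 ^ k * 2) + n * V3)
        = 3 * (P * (h y' + h (y' + 3 ^ k) + h (y' + 3 ^ k * 2))) + 3 * (P * (n * V3)) := by ring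
    omega

/-- mean cost of the rule over a class modulo three -/
theorem mean_class (C : Cert k Q V3 Hm r h A) (n ρ : ℕ) (hρ : ρ = 1 ∨ ρ = 2) :
    3 * ∑ y ∈ (range (3 ^ (k + 1 + n))).filter (fun y => y % 3 = ρ), Q * (wd r n y).sum
      ≤ 3 ^ (k + n) * (3 * Hm + n * V3) := by
  have hk := C.hk
  rw [Finset.sum_filter, pow_add, sum_range_mul, Finset.sum_comm, Finset.mul_sum]
  have h1 : ∀ y0 ∈ range (3 ^ (k + 1)), 3 * ∑ t ∈ range (3 ^ n),
      (if (y0 + 3 ^ (k + 1) * t) % 3 = ρ then Q * (wd r n (y0 + 3 ^ (k + 1) * t)).sum else 0)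
      ≤ if y0 % 3 = ρ then 3 ^ n * (3 * Hm + n * V3) else 0 := by
    intro y0 _
    have e : ∀ t, (y0 + 3 ^ (k + 1) * t) % 3 = y0 % 3 := by
      intro t
      rw [pow_succ]
      have : 3 ^ k * 3 * t = 3 * (3 ^ k * t) := by ring
      omega
    simp_rw [e]
    by_cases hy : y0 % 3 = ρ
    · simp only [if_pos hy]
      have hu : y0 % 3 ≠ 0 := by rcases hρ with h | h <;> omega
      refine (mean_cyl C n y0 hu).trans (Nat.mul_le_mul_left _ ?_)
      have := C.hHm y0 hu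
      omega
    · simp only [if_neg hy]
      simp
  refine (Finset.sum_le_sum h1).trans ?_
  rw [← Finset.sum_filter, Finset.sum_const, smul_eq_mul]
  have h2 : ((range (3 ^ (k + 1))).filter (fun y => y % 3 = ρ)).card = 3 ^ k := by
    have := Finset.card_eq_sum_ones ((range (3 ^ (k + 1))).filter (fun y => y % 3 = ρ))
    rw [this, Finset.sum_filter, pow_succ, mul_comm (3 ^ k) 3, sum_range_three_mul]
    rcases hρ with rfl | rfl
    · have : ∀ t : ℕ, ((if 3 * t % 3 = 1 then 1 else 0) + (if (3 * t + 1) % 3 = 1 then 1 else 0)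
          + (if (3 * t + 2) % 3 = 1 then 1 else 0)) = 1 := by
        intro t
        rw [if_neg (by omega), if_pos (by omega), if_neg (by omega)]
      simp only [this]; simp
    · have : ∀ t : ℕ, ((if 3 * t % 3 = 2 then 1 else 0) + (if (3 * t + 1) % 3 = 2 then 1 else 0)
          + (if (3 * t + 2) % 3 = 2 then 1 else 0)) = 1 := by
        intro t
        rw [if_neg (by omega), if_neg (by omega), if_pos (by omega)]
      simp only [this]; simp
  rw [h2, pow_add, mul_assoc]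

end St

end UKL
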