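import Mathlib
import Pool.Agent.Lib_helper2.UKL.Rigidity
import Pool.Agent.Lib_helper80.St.St1

/-!
# Stopping times, part 2: block kernel, rigidity, two cheap words from every unit
-/

namespace UKL

namespace St

open Finset

/-- smaller admissible letter -/
def lo (y : ℕ) : ℕ :=
  if y % 9 = 1 ∨ y % 9 = 4 then 2 else if y % 9 = 7 then 4 else if y % 9 = 5 then 3 else 1

/-- larger admissible letter -/
def hi (y : ℕ) : ℕ :=
  if y % 9 = 1 then 4 else if y % 9 = 4 ∨ y % 9 = 7 then 6 else if y % 9 = 2 then 3 else 5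

theorem lo_hi {y : ℕ} (hy : y % 3 ≠ 0) : Adm (lo y) y ∧ Adm (hi y) y ∧ lo y ≠ hi y := by
  unfold Adm ch lo hi
  obtain ⟨q, r, hr, rfl⟩ : ∃ q r, r < 9 ∧ y = 9 * q + r :=
    ⟨y / 9, y % 9, Nat.mod_lt _ (by norm_num), (Nat.div_add_mod y 9).symm⟩
  have hmod : (9 * q + r) % 9 = r := by omega
  rw [hmod]
  interval_cases r
  · omega
  · norm_num; omega
  · norm_num; omega
  · omega
  · norm_num; omega
  · norm_num; omega
  · omega
  · norm_num; omega
  · norm_num; omega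

theorem rule_lo : Rule 2 lo where
  per := by
    intro y t _
    unfold lo
    have : (y + 3 ^ 2 * t) % 9 = y % 9 := by omega
    rw [this]
  adm := fun y hy => (lo_hi hy).1

theorem hi_per (y t : ℕ) : hi (y + 3 ^ 2 * t) = hi y := by
  unfold hi
  have : (y + 3 ^ 2 * t) % 9 = y % 9 := by omega
  rw [this]

/-- common part of the two block words -/
def base (k n1 : ℕ) (r : ℕ → ℕ) (y : ℕ) : List ℕ :=
  wd r n1 y ++ wd lo (k - 1) (run (wd r n1 y) y)

/-- first block word -/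
def w1 (k n1 : ℕ) (r : ℕ → ℕ) (y : ℕ) : List ℕ :=
  base k n1 r y ++ [lo (run (base k n1 r y) y)]

/-- second block word -/
def w2 (k n1 : ℕ) (r : ℕ → ℕ) (y : ℕ) : List ℕ :=
  base k n1 r y ++ [hi (run (base k n1 r y) y)]

/-- data of a good word -/
def Good (L y : ℕ) (w : List ℕ) : Prop :=
  w.length = L ∧ ok w y ∧ run w y % 3 ≠ 0 ∧ ∀ j ∈ w, 1 ≤ j ∧ j ≤ 6

theorem Good.append {L L' y : ℕ} {w w' : List ℕ} (h : Good L y w) (h' : Good L' (run w y) w') :
    Good (L + L') y (w ++ w') := by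
  obtain ⟨a1, a2, a3, a4⟩ := h
  obtain ⟨b1, b2, b3, b4⟩ := h'
  refine ⟨by rw [List.length_append, a1, b1], (ok_append _ _ _).2 ⟨a2, b2⟩, by
    rw [run_append]; exact b3, ?_⟩
  intro j hj
  rcases List.mem_append.1 hj with h | h
  · exact a4 j h
  · exact b4 j h

theorem good_single {j y : ℕ} (h : Adm j y) : Good 1 y [j] := by
  obtain ⟨h1, h2, h3, h4⟩ := h
  exact ⟨rfl, ⟨h1, h3, trivial⟩, h4, by simp [h1, h2]⟩

theorem good_wd {D : ℕ} {r : ℕ → ℕ} (hr : Rule D r) (n y : ℕ) (hy : y % 3 ≠ 0) :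
    Good n y (wd r n y) := by
  obtain ⟨a1, a2, a3, _, a5⟩ := wd_props hr n y hy
  exact ⟨a1, a2, a3, a5⟩

variable {k n1 : ℕ} {r : ℕ → ℕ}

theorem good_base (hr : Rule (k + 1) r) {y : ℕ} (hy : y % 3 ≠ 0) :
    Good (n1 + (k - 1)) y (base k n1 r y) := by
  have h1 := good_wd hr n1 y hy
  exact h1.append (good_wd rule_lo (k - 1) _ h1.2.2.1)

theorem good_w1 (hk : 1 ≤ k) (hr : Rule (k + 1) r) {y : ℕ} (hy : y % 3 ≠ 0) :
    Good (n1 + k) y (w1 k n1 r y) := by
  have h1 := good_base (n1 := n1) hr hy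
  have h2 := h1.append (good_single (lo_hi h1.2.2.1).1)
  rwa [show n1 + (k - 1) + 1 = n1 + k by omega] at h2

theorem good_w2 (hk : 1 ≤ k) (hr : Rule (k + 1) r) {y : ℕ} (hy : y % 3 ≠ 0) :
    Good (n1 + k) y (w2 k n1 r y) := by
  have h1 := good_base (n1 := n1) hr hy
  have h2 := h1.append (good_single (lo_hi h1.2.2.1).2.1)
  rwa [show n1 + (k - 1) + 1 = n1 + k by omega] at h2

theorem w1_ne_w2 (hr : Rule (k + 1) r) {y : ℕ} (hy : y % 3 ≠ 0) :
    w1 k n1 r y ≠ w2 k n1 r y := by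
  have h1 := good_base (n1 := n1) hr hy
  intro h
  have h2 := List.append_cancel_left h
  simp only [List.cons.injEq, and_true] at h2
  exact (lo_hi h1.2.2.1).2.2 h2

theorem sum_base (hr : Rule (k + 1) r) {y : ℕ} (hy : y % 3 ≠ 0) :
    (base k n1 r y).sum ≤ (wd r n1 y).sum + 6 * (k - 1) := by
  have h1 := good_wd hr n1 y hy
  have h2 := (wd_props rule_lo (k - 1) _ h1.2.2.1).2.2.2.1
  unfold base
  rw [List.sum_append]
  omega

theorem sum_w1 (hk : 1 ≤ k) (hr : Rule (k + 1) r) {y : ℕ} (hy : y % 3 ≠ 0) :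
    (w1 k n1 r y).sum ≤ (wd r n1 y).sum + 6 * k := by
  have h1 := sum_base (n1 := n1) hr hy
  have h2 := (lo_hi (good_base (n1 := n1) hr hy).2.2.1).1.2.1
  unfold w1
  rw [List.sum_append, List.sum_singleton]
  omega

theorem sum_w2 (hk : 1 ≤ k) (hr : Rule (k + 1) r) {y : ℕ} (hy : y % 3 ≠ 0) :
    (w2 k n1 r y).sum ≤ (wd r n1 y).sum + 6 * k := by
  have h1 := sum_base (n1 := n1) hr hy
  have h2 := (lo_hi (good_base (n1 := n1) hr hy).2.2.1).2.1.2.1
  unfold w2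
  rw [List.sum_append, List.sum_singleton]
  omega

theorem base_shift (hk : 1 ≤ k) (hr : Rule (k + 1) r) {y : ℕ} (hy : y % 3 ≠ 0) (t : ℕ) :
    base k n1 r (y + 3 ^ (n1 + k + 1) * t) = base k n1 r y ∧
      ∃ t', run (base k n1 r y) (y + 3 ^ (n1 + k + 1) * t) = run (base k n1 r y) y + 3 ^ 2 * t' := by
  have e : n1 + k + 1 = (k + 1) + n1 := by ring
  have h1 := wd_shift hr (by omega) n1 y t hy
  have h2 := run_wd_shift hr n1 y t hy
  have hu := (good_wd hr n1 y hy).2.2.1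
  rw [e]
  have e2 : k + 1 = 2 + (k - 1) := by omega
  have h3 : ∀ t', wd lo (k - 1) (run (wd r n1 y) y + 3 ^ (k + 1) * t')
      = wd lo (k - 1) (run (wd r n1 y) y) := by
    intro t'
    rw [e2]
    exact wd_shift rule_lo (by norm_num) _ _ _ hu
  constructor
  · unfold base
    rw [h1, h2, h3]
  · unfold base
    rw [run_append, run_append, h2]
    rw [e2]
    exact ⟨_, run_wd_shift rule_lo _ _ _ hu⟩

theorem w1_shift (hk : 1 ≤ k) (hr : Rule (k + 1) r) {y : ℕ} (hy : y % 3 ≠ 0) (t : ℕ) :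
    w1 k n1 r (y + 3 ^ (n1 + k + 1) * t) = w1 k n1 r y := by
  obtain ⟨h1, t', h2⟩ := base_shift (n1 := n1) hk hr hy t
  unfold w1
  rw [h1, h2, rule_lo.per _ _ (good_base hr hy).2.2.1]

theorem w2_shift (hk : 1 ≤ k) (hr : Rule (k + 1) r) {y : ℕ} (hy : y % 3 ≠ 0) (t : ℕ) :
    w2 k n1 r (y + 3 ^ (n1 + k + 1) * t) = w2 k n1 r y := by
  obtain ⟨h1, t', h2⟩ := base_shift (n1 := n1) hk hr hy t
  unfold w2
  rw [h1, h2, hi_per]

/-! ## the kernel -/

/-- block kernel -/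
noncomputable def ker (k n1 : ℕ) (r : ℕ → ℕ) (y : ℕ) (w : List ℕ) : ℝ :=
  if y % 3 ≠ 0 then
    (if w = w1 k n1 r y then 1 / 2 else 0) + (if w = w2 k n1 r y then 1 / 2 else 0)
  else 0

theorem ker_nonneg (y : ℕ) (w : List ℕ) : 0 ≤ ker k n1 r y w := by
  unfold ker
  split_ifs <;> norm_num

theorem ker_le (hr : Rule (k + 1) r) (y : ℕ) (w : List ℕ) : ker k n1 r y w ≤ 1 / 2 := by
  unfold ker
  by_cases hy : y % 3 ≠ 0
  · rw [if_pos hy]
    by_cases h1 : w = w1 k n1 r y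
    · rw [if_pos h1, if_neg (fun h2 => w1_ne_w2 hr hy (h1.symm.trans h2))]
      norm_num
    · rw [if_neg h1]
      split_ifs <;> norm_num
  · rw [if_neg hy]
    norm_num

theorem ker_per (hk : 1 ≤ k) (hr : Rule (k + 1) r) (y : ℕ) (w : List ℕ) :
    ker k n1 r (y + 3 ^ (n1 + k + 1)) w = ker k n1 r y w := by
  unfold ker
  have e : (y + 3 ^ (n1 + k + 1)) % 3 = y % 3 := by rw [pow_succ]; omega
  rw [e]
  by_cases hy : y % 3 ≠ 0
  · have a1 := w1_shift (n1 := n1) hk hr hy 1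
    have a2 := w2_shift (n1 := n1) hk hr hy 1
    rw [mul_one] at a1 a2
    rw [a1, a2]
  · rw [if_neg hy, if_neg hy]

theorem mem_lists_of_good {L y : ℕ} {w : List ℕ} (h : Good L y w) : w ∈ lists L 6 :=
  mem_lists.2 ⟨h.1, h.2.2.2⟩

theorem sum_ker_mul (hk : 1 ≤ k) (hr : Rule (k + 1) r) {y : ℕ} (hy : y % 3 ≠ 0)
    (F : List ℕ → ℝ) : ∑ w ∈ lists (n1 + k) 6, ker k n1 r y w * F w
      = (F (w1 k n1 r y) + F (w2 k n1 r y)) / 2 := by
  have h1 := mem_lists_of_good (good_w1 (n1 := n1) hk hr hy)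
  have h2 := mem_lists_of_good (good_w2 (n1 := n1) hk hr hy)
  have : ∀ w, ker k n1 r y w * F w = (if w = w1 k n1 r y then F (w1 k n1 r y) / 2 else 0)
      + (if w = w2 k n1 r y then F (w2 k n1 r y) / 2 else 0) := by
    intro w
    unfold ker
    rw [if_pos hy]
    by_cases c1 : w = w1 k n1 r y
    · have c2 : w ≠ w2 k n1 r y := fun h => w1_ne_w2 hr hy (c1.symm.trans h)
      rw [if_pos c1, if_neg c2, if_pos c1, if_neg c2, ← c1]
      ring
    · by_cases c2 : w = w2 k n1 r y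
      · rw [if_neg c1, if_pos c2, if_neg c1, if_pos c2, ← c2]
        ring
      · rw [if_neg c1, if_neg c2, if_neg c1, if_neg c2]
        ring
  simp_rw [this]
  rw [Finset.sum_add_distrib, Finset.sum_ite_eq' , Finset.sum_ite_eq', if_pos h1, if_pos h2]
  ring

theorem ker_ne_zero (hk : 1 ≤ k) (hr : Rule (k + 1) r) {y : ℕ} {w : List ℕ}
    (h : ker k n1 r y w ≠ 0) : y % 3 ≠ 0 ∧ Good (n1 + k) y w := by
  unfold ker at h
  by_cases hy : y % 3 ≠ 0
  · rw [if_pos hy] at h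
    refine ⟨hy, ?_⟩
    by_cases c1 : w = w1 k n1 r y
    · rw [c1]; exact good_w1 hk hr hy
    · by_cases c2 : w = w2 k n1 r y
      · rw [c2]; exact good_w2 hk hr hy
      · rw [if_neg c1, if_neg c2] at h
        norm_num at h
  · rw [if_neg hy] at h
    exact absurd rfl h

/-- a path which is at least as cheap as the mean -/
theorem exists_path (hk : 1 ≤ k) (hr : Rule (k + 1) r) (φ : ℕ → ℝ)
    (hφ : ∀ y, y % 3 ≠ 0 → φ y = ∑ w ∈ lists (n1 + k) 6, ker k n1 r y w * (w.sum : ℝ)) :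
    ∀ (n y : ℕ), y % 3 ≠ 0 → ∃ u, Good (n * (n1 + k)) y u ∧
      (u.sum : ℝ) ≤ ∑ t ∈ range n, ((P (lists (n1 + k) 6) (ker k n1 r))^[t] φ) y := by
  intro n
  induction n with
  | zero =>
    intro y hy
    exact ⟨[], ⟨by simp, trivial, hy, by simp⟩, by simp⟩
  | succ n ih =>
    intro y hy
    set Wd := lists (n1 + k) 6 with hWd
    set p := ker k n1 r with hp
    set V : ℕ → ℝ := fun z => ∑ t ∈ range n, ((P Wd p)^[t] φ) z with hV
    have hsum : ∑ t ∈ range (n + 1), ((P Wd p)^[t] φ) y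
        = ∑ w ∈ Wd, p y w * ((w.sum : ℝ) + V (run w y)) := by
      rw [Finset.sum_range_succ']
      simp only [Function.iterate_succ', Function.comp_apply, Function.iterate_zero, id_eq]
      simp_rw [mul_add]
      rw [Finset.sum_add_distrib, ← hφ y hy, add_comm]
      congr 1
      simp only [hV]
      unfold P
      simp_rw [Finset.mul_sum]
      rw [Finset.sum_comm]
    have hone : ∑ w ∈ Wd, p y w = 1 := by
      have := sum_ker_mul (n1 := n1) hk hr hy (fun _ => (1 : ℝ))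
      simp only [mul_one] at this
      rw [hWd, hp, this]; norm_num
    obtain ⟨w, hw, hpw, hle⟩ : ∃ w ∈ Wd, p y w ≠ 0 ∧ (w.sum : ℝ) + V (run w y)
        ≤ ∑ t ∈ range (n + 1), ((P Wd p)^[t] φ) y := by
      by_contra hcon
      push Not at hcon
      set X := ∑ t ∈ range (n + 1), ((P Wd p)^[t] φ) y with hX
      have h0 : ∑ w ∈ Wd, p y w * ((w.sum : ℝ) + V (run w y) - X) = 0 := by
        simp_rw [mul_sub]
        rw [Finset.sum_sub_distrib, ← hsum, ← Finset.sum_mul, hone]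
        ring
      have h1 : ∀ w ∈ Wd, 0 ≤ p y w * ((w.sum : ℝ) + V (run w y) - X) := by
        intro w hw
        by_cases hz : p y w = 0
        · rw [hz, zero_mul]
        · exact mul_nonneg (ker_nonneg _ _) (by have := hcon w hw hz; linarith)
      have h2 := (Finset.sum_eq_zero_iff_of_nonneg h1).1 h0
      have h3 : ∀ w ∈ Wd, p y w = 0 := by
        intro w hw
        by_contra hz
        have h4 := hcon w hw hz
        rcases mul_eq_zero.1 (h2 w hw) with h | h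
        · exact hz h
        · linarith
      rw [Finset.sum_eq_zero h3] at hone
      norm_num at hone
    obtain ⟨_, hg⟩ := ker_ne_zero hk hr hpw
    obtain ⟨u, hu, hle'⟩ := ih (run w y) hg.2.2.1
    refine ⟨w ++ u, ?_, ?_⟩
    · have := hg.append hu
      rwa [show n1 + k + n * (n1 + k) = (n + 1) * (n1 + k) by ring] at this
    · rw [List.sum_append, Nat.cast_add]
      have : (u.sum : ℝ) ≤ V (run w y) := hle'
      linarith

/-- mean of the block cost -/
theorem phi_mean {Q V3 Hm : ℕ} {h A : ℕ → ℕ} (C : Cert k Q V3 Hm r h A) (hQ : 0 < Q)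
    (φ : ℕ → ℝ)
    (hφ : ∀ y, y % 3 ≠ 0 → φ y = ∑ w ∈ lists (n1 + k) 6, ker k n1 r y w * (w.sum : ℝ))
    (ρ : ℕ) (hρ : ρ = 1 ∨ ρ = 2) :
    ∑ y ∈ (range (3 ^ (n1 + k + 1))).filter (fun y => y % 3 = ρ), φ y
      ≤ ((3 * Hm + n1 * V3 : ℝ) / (3 * Q) + 6 * k) * 3 ^ (n1 + k) := by
  have hk := C.hk
  have h1 : ∀ y ∈ (range (3 ^ (n1 + k + 1))).filter (fun y => y % 3 = ρ),
      φ y ≤ ((wd r n1 y).sum : ℝ) + 6 * k := by
    intro y hy
    rw [mem_filter] at hy
    have hu : y % 3 ≠ 0 := by rcases hρ with h | h <;> omega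
    rw [hφ y hu, sum_ker_mul hk C.rule hu]
    have a1 : ((w1 k n1 r y).sum : ℝ) ≤ (wd r n1 y).sum + 6 * k := by
      exact_mod_cast sum_w1 hk C.rule hu
    have a2 : ((w2 k n1 r y).sum : ℝ) ≤ (wd r n1 y).sum + 6 * k := by
      exact_mod_cast sum_w2 hk C.rule hu
    linarith
  refine (Finset.sum_le_sum h1).trans ?_
  rw [Finset.sum_add_distrib, Finset.sum_const, nsmul_eq_mul]
  have hcard : (((range (3 ^ (n1 + k + 1))).filter (fun y => y % 3 = ρ)).card : ℝ)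
      = 3 ^ (n1 + k) := by
    have h2 : ((range (3 ^ (n1 + k + 1))).filter (fun y => y % 3 = ρ)).card = 3 ^ (n1 + k) := by
      have := Finset.card_eq_sum_ones ((range (3 ^ (n1 + k + 1))).filter (fun y => y % 3 = ρ))
      rw [this, Finset.sum_filter, pow_succ, mul_comm (3 ^ (n1 + k)) 3, sum_range_three_mul]
      rcases hρ with rfl | rfl
      · have : ∀ t : ℕ, ((if 3 * t % 3 = 1 then 1 else 0) + (if (3 * t + 1) % 3 = 1 then 1 else 0)
            + (if (3 * t + 2) % 3 = 1 then 1 else 0)) = 1 := by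
          intro t
          rw [if_neg (by omega), if_pos (by omega), if_neg (by omega)]
        simp only [this]; simp
      · have : ∀ t : ℕ, ((if 3 * t % 3 = 2 then 1 else 0) + (if (3 * t + 1) % 3 = 2 then 1 else 0)
            + (if (3 * t + 2) % 3 = 2 then 1 else 0)) = 1 := by
          intro t
          rw [if_neg (by omega), if_neg (by omega), if_pos (by omega)]
        simp only [this]; simp
    rw [h2]; push_cast; rfl
  rw [hcard]
  have h3 := mean_class C n1 ρ hρ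
  rw [← Finset.mul_sum, show k + 1 + n1 = n1 + k + 1 by ring, show k + n1 = n1 + k by ring] at h3
  have h4 : (3 : ℝ) * (Q * ∑ y ∈ (range (3 ^ (n1 + k + 1))).filter (fun y => y % 3 = ρ),
      ((wd r n1 y).sum : ℝ)) ≤ 3 ^ (n1 + k) * (3 * Hm + n1 * V3) := by exact_mod_cast h3
  have hQ' : (0 : ℝ) < Q := by exact_mod_cast hQ
  set X := ∑ y ∈ (range (3 ^ (n1 + k + 1))).filter (fun y => y % 3 = ρ), ((wd r n1 y).sum : ℝ)
  have h5 : X ≤ (3 * Hm + n1 * V3 : ℝ) / (3 * Q) * 3 ^ (n1 + k) := by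
    rw [div_mul_eq_mul_div, le_div_iff₀ (by positivity)]
    linarith
  linarith

/-- **two cheap words from every unit** -/
theorem two_words {Q V3 Hm : ℕ} {h A : ℕ → ℕ} (C : Cert k Q V3 Hm r h A) (hQ : 0 < Q)
    (s : ℝ) (hs : (V3 : ℝ) / (3 * Q) < s) : ∃ L : ℕ, 1 ≤ L ∧ ∀ y, y % 3 ≠ 0 →
      ∃ w w', w ≠ w' ∧ (Good L y w ∧ (w.sum : ℝ) ≤ s * L) ∧ (Good L y w' ∧ (w'.sum : ℝ) ≤ s * L) := by
  have hk := C.hk
  have hQ' : (0 : ℝ) < Q := by exact_mod_cast hQ
  have hv0 : 0 ≤ (V3 : ℝ) / (3 * Q) := by positivity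
  have hs0 : 0 < s := lt_of_le_of_lt hv0 hs
  set v : ℝ := (V3 : ℝ) / (3 * Q) with hv
  obtain ⟨n1, hn1⟩ := exists_nat_ge (((Hm : ℝ) / Q + 6 * k + 8) / (s - v))
  have hsv : 0 < s - v := by linarith
  rw [div_le_iff₀ hsv] at hn1
  set φ : ℕ → ℝ := fun y => ∑ w ∈ lists (n1 + k) 6, ker k n1 r y w * (w.sum : ℝ) with hφ
  have hrig := rigidity (n1 + k) (by omega) (lists (n1 + k) 6)
    (fun w hw => (mem_lists.1 hw).1) (ker k n1 r) ker_nonneg (fun y w => ker_per hk C.rule y w)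
    (fun y hy => by
      have := sum_ker_mul (n1 := n1) hk C.rule hy (fun _ => (1 : ℝ))
      simp only [mul_one] at this
      rw [this]; norm_num)
    (fun y w _ hne => by
      obtain ⟨_, hg⟩ := ker_ne_zero hk C.rule hne
      exact ⟨hg.2.1, hg.2.2.1⟩)
    (1 / 2) (by norm_num) (ker_le C.rule) φ
    (fun y => by simp only [hφ, ker_per hk C.rule])
    ((3 * Hm + n1 * V3 : ℝ) / (3 * Q) + 6 * k)
    (fun ρ hρ => phi_mean C hQ φ (fun y _ => rfl) ρ hρ) 1 one_pos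
  obtain ⟨n, hn, hbd⟩ := hrig
  have hpath : ∀ y, y % 3 ≠ 0 → ∃ u, Good (n * (n1 + k)) y u ∧
      (u.sum : ℝ) + 7 ≤ s * (n * (n1 + k) : ℕ) := by
    intro y hy
    obtain ⟨u, hu, hle⟩ := exists_path hk C.rule φ (fun y _ => rfl) n y hy
    refine ⟨u, hu, ?_⟩
    have h1 := hle.trans (hbd y hy)
    have e1 : (3 * Hm + n1 * V3 : ℝ) / (3 * Q) = Hm / Q + n1 * v := by
      rw [hv]; field_simp
    rw [e1] at h1
    have hn' : (1 : ℝ) ≤ n := by exact_mod_cast hn
    have hk0 : (0 : ℝ) ≤ k := Nat.cast_nonneg k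
    have h2 : (Hm : ℝ) / Q + n1 * v + 6 * k + 1 + 7 ≤ s * (n1 + k) := by nlinarith
    have h6 : ((n * (n1 + k) : ℕ) : ℝ) = n * (n1 + k) := by push_cast; ring
    rw [h6]
    generalize (u.sum : ℝ) = us at h1 ⊢
    have h3 : (n : ℝ) * ((Hm : ℝ) / Q + n1 * v + 6 * k + 1 + 7) ≤ n * (s * (n1 + k)) :=
      mul_le_mul_of_nonneg_left h2 (by linarith)
    nlinarith
  refine ⟨n * (n1 + k) + 1, by omega, fun y hy => ?_⟩
  obtain ⟨a1, a2, a3⟩ := lo_hi hy
  obtain ⟨u, hu, hle⟩ := hpath _ a1.2.2.2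
  obtain ⟨u', hu', hle'⟩ := hpath _ a2.2.2.2
  have g1 := (good_single a1).append hu
  have g2 := (good_single a2).append hu'
  refine ⟨[lo y] ++ u, [hi y] ++ u', ?_, ⟨by rwa [add_comm] at g1, ?_⟩, ⟨by rwa [add_comm] at g2, ?_⟩⟩
  · intro h
    simp only [List.cons_append, List.nil_append, List.cons.injEq] at h
    exact a3 h.1
  · have h6 : (lo y : ℝ) ≤ 6 := by exact_mod_cast a1.2.1
    rw [List.sum_append, List.sum_singleton, Nat.cast_add, Nat.cast_add, Nat.cast_one]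
    linarith
  · have h6 : (hi y : ℝ) ≤ 6 := by exact_mod_cast a2.2.1
    rw [List.sum_append, List.sum_singleton, Nat.cast_add, Nat.cast_add, Nat.cast_one]
    linarith

end St

end UKL
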