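import Mathlib
import Pool.Agent.Lib_helper80.St.St2

/-!
# Stopping times, part 3: counting and first hitting times
-/

namespace UKL

namespace St

open Finset Filter M1

/-! ## step counts -/

theorem T_run_exact : ∀ (w : List ℕ) (y : ℕ), ok w y → T^[w.sum + w.length] (run w y) = y
  | [], _, _ => rfl
  | j :: w, y, h => by
    obtain ⟨h1, h2, h3⟩ := h
    have ih := T_run_exact w _ h3
    have e : (j :: w).sum + (j :: w).length = (j + 1) + (w.sum + w.length) := by
      simp only [List.sum_cons, List.length_cons]; ring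
    rw [e, Function.iterate_add_apply]
    simp only [run]
    rw [ih, T_child h1 h2]

theorem T_pow' (i d q : ℕ) : T^[i] (2 ^ (i + d) * q) = 2 ^ d * q := by
  rw [pow_add, mul_assoc]
  exact T_pow i (2 ^ d * q)

theorem S_spec {x : ℕ} (hx : x % 2 = 1) :
    ∃ v, 1 ≤ v ∧ 3 * x + 1 = 2 ^ v * S x ∧ S x % 2 = 1 := by
  have : Fact (Nat.Prime 2) := ⟨Nat.prime_two⟩
  set v := padicValNat 2 (3 * x + 1) with hv
  have hd : 2 ^ v ∣ 3 * x + 1 := pow_padicValNat_dvd
  have hnd : ¬ 2 ^ (v + 1) ∣ 3 * x + 1 := pow_succ_padicValNat_not_dvd (by omega)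
  have hS : 3 * x + 1 = 2 ^ v * S x := by
    unfold S
    rw [← hv, Nat.mul_div_cancel' hd]
  refine ⟨v, ?_, hS, ?_⟩
  · by_contra hc
    have h0 : v = 0 := by omega
    rw [h0] at hnd
    exact hnd ⟨(3 * x + 1) / 2, by omega⟩
  · by_contra hc
    apply hnd
    have h2 : S x % 2 = 0 := by omega
    rw [hS, pow_succ]
    exact Nat.mul_dvd_mul_left _ (Nat.dvd_of_mod_eq_zero h2)

theorem T_odd_eq : ∀ (k x : ℕ), x % 2 = 1 → T^[k + 1] x % 2 = 1 →
    ∃ j, T^[k + 1] x = S^[j + 1] x := by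
  intro k
  induction k using Nat.strong_induction_on with
  | _ k ih =>
    intro x hx hT
    obtain ⟨v, hv1, hS, hSo⟩ := S_spec hx
    have hTx : T x = 2 ^ v * S x := by
      rw [← hS]; unfold T; rw [if_neg (by omega)]
    rcases Nat.lt_trichotomy k v with h | h | h
    · exfalso
      obtain ⟨d, hd⟩ : ∃ d, v = k + (d + 1) := ⟨v - k - 1, by omega⟩
      rw [Function.iterate_succ_apply, hTx, hd, T_pow', pow_succ] at hT
      have : 2 ^ d * 2 * S x = 2 * (2 ^ d * S x) := by ring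
      omega
    · refine ⟨0, ?_⟩
      rw [Function.iterate_succ_apply, hTx, h, T_pow, Function.iterate_one]
    · obtain ⟨k', hk'⟩ : ∃ k', k = (k' + 1) + v := ⟨k - v - 1, by omega⟩
      have e : T^[k + 1] x = T^[k' + 1] (S x) := by
        rw [Function.iterate_succ_apply, hTx, hk', Function.iterate_add_apply, T_pow]
      rw [e] at hT ⊢
      obtain ⟨j, hj⟩ := ih k' (by omega) (S x) hSo hT
      exact ⟨j + 1, by rw [hj, ← Function.iterate_succ_apply]⟩

theorem T_nonper {r : ℕ} (hr2 : r % 2 = 1) (hr : ∀ k, S^[k + 1] r ≠ r) (k : ℕ) :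
    T^[k + 1] r ≠ r := by
  intro h
  obtain ⟨j, hj⟩ := T_odd_eq k r hr2 (by rw [h]; exact hr2)
  exact hr j (hj.symm.trans h)

/-- first hitting time -/
theorem hitting {r a z s0 t1 : ℕ} (hr : ∀ k, T^[k + 1] r ≠ r) (hs0 : T^[s0] r = a)
    (ht1 : T^[t1] z = r) : ∃ k, T^[k] z = a ∧ (∀ i < k, T^[i] z ≠ a) ∧ t1 ≤ k := by
  classical
  have hex : ∃ k, T^[k] z = a := ⟨s0 + t1, by rw [Function.iterate_add_apply, ht1, hs0]⟩
  refine ⟨Nat.find hex, Nat.find_spec hex, fun i hi => Nat.find_min hex hi, ?_⟩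
  by_contra hc
  rw [not_le] at hc
  set i := Nat.find hex with hi
  have h1 : T^[i] z = a := Nat.find_spec hex
  obtain ⟨d, hd⟩ : ∃ d, t1 = (d + 1) + i := ⟨t1 - i - 1, by omega⟩
  rw [hd, Function.iterate_add_apply, h1, ← hs0, ← Function.iterate_add_apply] at ht1
  exact hr (d + s0) (by rw [show d + s0 + 1 = d + 1 + s0 by ring]; exact ht1)

/-! ## families of words -/

open Classical in
/-- words built from two block words -/
noncomputable def fam (g0 g1 : ℕ → List ℕ) : ℕ → ℕ → Finset (List ℕ)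
  | 0, _ => {[]}
  | m + 1, y => (fam g0 g1 m (run (g0 y) y)).image (fun u => g0 y ++ u) ∪
      (fam g0 g1 m (run (g1 y) y)).image (fun u => g1 y ++ u)

theorem fam_props {L : ℕ} {s : ℝ} {g0 g1 : ℕ → List ℕ}
    (h0 : ∀ y, y % 3 ≠ 0 → Good L y (g0 y) ∧ ((g0 y).sum : ℝ) ≤ s * L)
    (h1 : ∀ y, y % 3 ≠ 0 → Good L y (g1 y) ∧ ((g1 y).sum : ℝ) ≤ s * L)
    (hne : ∀ y, y % 3 ≠ 0 → g0 y ≠ g1 y) : ∀ (m y : ℕ), y % 3 ≠ 0 →
      (∀ u ∈ fam g0 g1 m y, Good (m * L) y u ∧ (u.sum : ℝ) ≤ s * (m * L)) ∧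
      (fam g0 g1 m y).card = 2 ^ m := by
  classical
  intro m
  induction m with
  | zero =>
    intro y hy
    refine ⟨fun u hu => ?_, by simp [fam]⟩
    simp only [fam, mem_singleton] at hu
    subst hu
    exact ⟨⟨by simp, trivial, hy, by simp⟩, by simp⟩
  | succ m ih =>
    intro y hy
    obtain ⟨a0, b0⟩ := h0 y hy
    obtain ⟨a1, b1⟩ := h1 y hy
    obtain ⟨c0, d0⟩ := ih _ a0.2.2.1
    obtain ⟨c1, d1⟩ := ih _ a1.2.2.1
    constructor
    · intro u hu
      rw [fam, mem_union, mem_image, mem_image] at hu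
      rcases hu with ⟨v, hv, rfl⟩ | ⟨v, hv, rfl⟩
      · obtain ⟨e1, e2⟩ := c0 v hv
        have := a0.append e1
        refine ⟨by rwa [show L + m * L = (m + 1) * L by ring] at this, ?_⟩
        rw [List.sum_append, Nat.cast_add, Nat.cast_add, Nat.cast_one]
        linarith
      · obtain ⟨e1, e2⟩ := c1 v hv
        have := a1.append e1
        refine ⟨by rwa [show L + m * L = (m + 1) * L by ring] at this, ?_⟩
        rw [List.sum_append, Nat.cast_add, Nat.cast_add, Nat.cast_one]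
        linarith
    · rw [fam, card_union_of_disjoint, card_image_of_injective _
        (fun _ _ h => List.append_cancel_left h), card_image_of_injective _
        (fun _ _ h => List.append_cancel_left h), d0, d1, pow_succ]
      · ring
      · rw [Finset.disjoint_left]
        intro u hu hu'
        rw [mem_image] at hu hu'
        obtain ⟨v, _, rfl⟩ := hu
        obtain ⟨v', _, h⟩ := hu'
        exact hne y hy (List.append_inj h (a1.1.trans a0.1.symm)).1.symm

/-- **counting theorem** -/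
theorem count_slow {L : ℕ} (hL : 1 ≤ L) {s C : ℝ} (hs3 : Real.log 3 < s * Real.log 2)
    (hC1 : 1 ≤ C * Real.log 2) (hC : C * (s * Real.log 2 - Real.log 3) < s + 1)
    (hw : ∀ y, y % 3 ≠ 0 → ∃ w w', w ≠ w' ∧ (Good L y w ∧ (w.sum : ℝ) ≤ s * L) ∧
      (Good L y w' ∧ (w'.sum : ℝ) ≤ s * L)) {a : ℕ} (ha : a % 3 ≠ 0) :
    ∃ c : ℝ, 0 < c ∧ ∃ x0 : ℕ, ∀ x : ℕ, x0 ≤ x → (x : ℝ) ^ c ≤
      (Set.ncard {n : ℕ | 1 ≤ n ∧ n ≤ x ∧ ∃ k : ℕ, T^[k] n = a ∧ (∀ i < k, T^[i] n ≠ a) ∧
        C * Real.log n ≤ k} : ℝ) := by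
  classical
  -- choice of words
  have hw' : ∀ y, ∃ w w', y % 3 ≠ 0 → w ≠ w' ∧ (Good L y w ∧ (w.sum : ℝ) ≤ s * L) ∧
      (Good L y w' ∧ (w'.sum : ℝ) ≤ s * L) := by
    intro y
    by_cases hy : y % 3 ≠ 0
    · obtain ⟨w, w', h⟩ := hw y hy
      exact ⟨w, w', fun _ => h⟩
    · exact ⟨[], [], fun h => absurd h hy⟩
  choose g0 g1 hg using hw'
  obtain ⟨r, hr3, hr2, hrS, s0, hs0⟩ := M1.exists_root ha
  have hrT := T_nonper hr2 hrS
  have hr0 : 0 < r := by omega
  have hr0' : (1 : ℝ) ≤ r := by exact_mod_cast hr0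
  have hlr : 0 ≤ Real.log r := Real.log_nonneg hr0'
  have hL' : (1 : ℝ) ≤ L := by exact_mod_cast hL
  have hl2 : 0 < Real.log 2 := Real.log_pos (by norm_num)
  set β : ℝ := L * (s * Real.log 2 - Real.log 3) with hβ
  have hβ0 : 0 < β := mul_pos (by linarith) (by linarith)
  set δ : ℝ := s + 1 - C * (s * Real.log 2 - Real.log 3) with hδ
  have hδ0 : 0 < δ := by linarith
  have hC0 : 0 < C := by
    by_contra hc
    have : C * Real.log 2 ≤ 0 := mul_nonpos_of_nonpos_of_nonneg (not_lt.1 hc) hl2.le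
    linarith
  -- large `x`
  obtain ⟨x1, hx1⟩ : ∃ x1 : ℕ, ∀ x : ℕ, x1 ≤ x →
      2 * Real.log r + 2 * β + 2 * β * (C * Real.log r / (L * δ)) ≤ Real.log x := by
    have ht : Tendsto (fun x : ℕ => Real.log (x : ℝ)) atTop atTop :=
      Real.tendsto_log_atTop.comp tendsto_natCast_atTop_atTop
    exact eventually_atTop.1 (ht.eventually_ge_atTop _)
  refine ⟨Real.log 2 / (2 * β), by positivity, max x1 1, fun x hx => ?_⟩
  have hxx := hx1 x ((le_max_left _ _).trans hx)
  have hx0 : 1 ≤ x := (le_max_right _ _).trans hx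
  have hx0' : (0 : ℝ) < x := by exact_mod_cast hx0
  have hE0 : 0 ≤ C * Real.log r / (L * δ) := by positivity
  set E : ℝ := C * Real.log r / (L * δ) with hE
  set m : ℕ := ⌊(Real.log x - Real.log r) / β⌋₊ with hm
  have hpos : 0 ≤ (Real.log x - Real.log r) / β := by
    apply div_nonneg _ hβ0.le
    nlinarith
  have hm1 : (m : ℝ) * β ≤ Real.log x - Real.log r := by
    have := Nat.floor_le hpos
    rwa [le_div_iff₀ hβ0] at this
  have hm2 : Real.log x - Real.log r < (m + 1) * β := by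
    have := Nat.lt_floor_add_one ((Real.log x - Real.log r) / β)
    rwa [div_lt_iff₀ hβ0] at this
  have hm3 : Real.log x / (2 * β) ≤ m := by
    rw [div_le_iff₀ (by positivity)]
    nlinarith [mul_nonneg hβ0.le hE0]
  have hm4 : E ≤ m := by
    have : E * β ≤ m * β := by nlinarith
    exact le_of_mul_le_mul_right this hβ0
  obtain ⟨hmem, hcard⟩ := fam_props (L := L) (s := s) (g0 := g0) (g1 := g1)
    (fun y hy => (hg y hy).2.1) (fun y hy => (hg y hy).2.2) (fun y hy => (hg y hy).1) m r hr3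
  set Pn : Finset ℕ := (fam g0 g1 m r).image (fun u => run u r) with hPn
  have hPcard : Pn.card = 2 ^ m := by
    rw [hPn, ← hcard]
    apply card_image_of_injOn
    intro u hu u' hu' he
    exact run_injective hr2 hrS (hmem u hu).1.2.1 (hmem u' hu').1.2.1 he
  have hsub : (Pn : Set ℕ) ⊆ {n : ℕ | 1 ≤ n ∧ n ≤ x ∧ ∃ k : ℕ, T^[k] n = a ∧
      (∀ i < k, T^[i] n ≠ a) ∧ C * Real.log n ≤ k} := by
    intro n hn
    rw [mem_coe, hPn, mem_image] at hn
    obtain ⟨u, hu, rfl⟩ := hn
    obtain ⟨⟨g1', g2', _, _⟩, hsum⟩ := hmem u hu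
    have hz := run_pos g2' hr0
    have hz' : (0 : ℝ) < run u r := by exact_mod_cast hz
    have hlen : ((u.length : ℕ) : ℝ) = m * L := by rw [g1']; push_cast; ring
    -- logarithm of the node
    have hlog : Real.log (run u r) ≤ u.sum * Real.log 2 - m * L * Real.log 3 + Real.log r := by
      have h3 := run_eq u r g2'
      have h4 : (3 : ℝ) ^ u.length * run u r ≤ 2 ^ u.sum * r := by
        have : 3 ^ u.length * run u r ≤ 2 ^ u.sum * r := by omega
        exact_mod_cast this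
      have h5 := Real.log_le_log (by positivity) h4
      rw [Real.log_mul (by positivity) hz'.ne', Real.log_mul (by positivity) (by positivity),
        Real.log_pow, Real.log_pow, hlen] at h5
      linarith
    generalize hus : ((u.sum : ℕ) : ℝ) = us at hlog hsum
    refine ⟨hz, ?_, ?_⟩
    · have h6 : Real.log (run u r) ≤ Real.log x := by
        have h7 : us * Real.log 2 ≤ s * (m * L) * Real.log 2 :=
          mul_le_mul_of_nonneg_right hsum hl2.le
        have h8 : s * (m * L) * Real.log 2 - m * L * Real.log 3 = m * β := by rw [hβ]; ring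
        linarith
      have := (Real.log_le_log_iff hz' hx0').1 h6
      exact_mod_cast this
    · obtain ⟨k, hk1, hk2, hk3⟩ := hitting hrT hs0 (T_run_exact u r g2')
      refine ⟨k, hk1, hk2, ?_⟩
      have h9 : us + m * L ≤ k := by
        rw [← hus, ← hlen]; exact_mod_cast hk3
      refine le_trans ?_ h9
      have h10 : C * Real.log (run u r) ≤
          C * (us * Real.log 2 - m * L * Real.log 3 + Real.log r) :=
        mul_le_mul_of_nonneg_left hlog hC0.le
      refine h10.trans ?_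
      have h11 : (C * Real.log 2 - 1) * us ≤ (C * Real.log 2 - 1) * (s * (m * L)) :=
        mul_le_mul_of_nonneg_left hsum (by linarith)
      have h12 : C * Real.log r ≤ m * (L * δ) := by
        have : E * (L * δ) ≤ m * (L * δ) := mul_le_mul_of_nonneg_right hm4 (by positivity)
        rw [hE, div_mul_cancel₀ _ (by positivity)] at this
        exact this
      rw [hδ] at h12
      nlinarith
  have hfin : {n : ℕ | 1 ≤ n ∧ n ≤ x ∧ ∃ k : ℕ, T^[k] n = a ∧
      (∀ i < k, T^[i] n ≠ a) ∧ C * Real.log n ≤ k}.Finite :=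
    (Set.finite_Iic x).subset fun n hn => hn.2.1
  have h1 : (Pn.card : ℝ) ≤ (Set.ncard {n : ℕ | 1 ≤ n ∧ n ≤ x ∧ ∃ k : ℕ, T^[k] n = a ∧
      (∀ i < k, T^[i] n ≠ a) ∧ C * Real.log n ≤ k} : ℝ) := by
    have := Set.ncard_le_ncard hsub hfin
    rw [Set.ncard_coe_finset] at this
    exact_mod_cast this
  refine le_trans ?_ h1
  rw [hPcard]
  push_cast
  rw [Real.rpow_def_of_pos hx0', ← Real.exp_log (by positivity : (0 : ℝ) < 2 ^ m), Real.exp_le_exp,
    Real.log_pow]
  have : Real.log x * (Real.log 2 / (2 * β)) = Real.log x / (2 * β) * Real.log 2 := by ring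
  rw [this]
  exact mul_le_mul_of_nonneg_right hm3 hl2.le

end St

end UKL
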