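import Mathlib
import Pool.Agent.Lib_helper80.St.St2

/-!
# Stopping times: certificates from tables
-/

namespace UKL

namespace St

open Finset

/-- cost of a letter, given a table `tb` indexed by residues modulo `3 ^ k` -/
def cst (k Q : ℕ) (tb : ℕ → ℕ) (j y : ℕ) : ℕ :=
  if ch j y % 3 = 0 then 1000000 else Q * j + tb (ch j y % 3 ^ k)

/-- least of three costs with the letter -/
def pick (k Q : ℕ) (tb : ℕ → ℕ) (a b c y : ℕ) : ℕ :=
  if cst k Q tb a y ≤ cst k Q tb b y ∧ cst k Q tb a y ≤ cst k Q tb c y then a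
  else if cst k Q tb b y ≤ cst k Q tb c y then b else c

/-- the look-ahead rule -/
def pol (k Q : ℕ) (tb : ℕ → ℕ) (y : ℕ) : ℕ :=
  if y % 3 = 1 then pick k Q tb 2 4 6 y else pick k Q tb 1 3 5 y

/-- least cost -/
def hh (k Q : ℕ) (tb : ℕ → ℕ) (y : ℕ) : ℕ :=
  if y % 3 = 1 then min (cst k Q tb 2 y) (min (cst k Q tb 4 y) (cst k Q tb 6 y))
  else min (cst k Q tb 1 y) (min (cst k Q tb 3 y) (cst k Q tb 5 y))

variable {k Q : ℕ} {tb : ℕ → ℕ}

theorem cst_per {j y : ℕ} (hk : 1 ≤ k) (h : 2 ^ j * y % 3 = 1) (t : ℕ) :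
    cst k Q tb j (y + 3 ^ (k + 1) * t) = cst k Q tb j y := by
  unfold cst
  rw [ch_shift h]
  have e1 : (ch j y + 3 ^ k * (2 ^ j * t)) % 3 ^ k = ch j y % 3 ^ k := by
    rw [Nat.add_mul_mod_self_left]
  have e2 : (ch j y + 3 ^ k * (2 ^ j * t)) % 3 = ch j y % 3 := by
    obtain ⟨k', rfl⟩ : ∃ k', k = k' + 1 := ⟨k - 1, by omega⟩
    rw [pow_succ, show 3 ^ k' * 3 * (2 ^ j * t) = 3 * (3 ^ k' * (2 ^ j * t)) by ring,
      Nat.add_mul_mod_self_left]
  rw [e1, e2]

theorem two_pow_mod {y : ℕ} : (y % 3 = 1 → 2 ^ 2 * y % 3 = 1 ∧ 2 ^ 4 * y % 3 = 1 ∧ 2 ^ 6 * y % 3 = 1)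
    ∧ (y % 3 = 2 → 2 ^ 1 * y % 3 = 1 ∧ 2 ^ 3 * y % 3 = 1 ∧ 2 ^ 5 * y % 3 = 1) := by
  constructor <;> intro h <;> norm_num <;> omega

theorem pick_spec (a b c y : ℕ) : (pick k Q tb a b c y = a ∨ pick k Q tb a b c y = b ∨
    pick k Q tb a b c y = c) ∧ cst k Q tb (pick k Q tb a b c y) y
      = min (cst k Q tb a y) (min (cst k Q tb b y) (cst k Q tb c y)) := by
  unfold pick
  split_ifs with h1 h2
  · refine ⟨Or.inl rfl, ?_⟩
    rw [min_eq_left]
    exact le_min h1.1 h1.2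
  · refine ⟨Or.inr (Or.inl rfl), ?_⟩
    rw [min_eq_left h2, min_eq_right]
    by_contra hc
    exact h1 ⟨by omega, by omega⟩
  · refine ⟨Or.inr (Or.inr rfl), ?_⟩
    rw [min_eq_right (by omega : cst k Q tb c y ≤ cst k Q tb b y), min_eq_right]
    by_contra hc
    exact h1 ⟨by omega, by omega⟩

theorem pick_per {a b c y : ℕ} (hk : 1 ≤ k) (ha : 2 ^ a * y % 3 = 1) (hb : 2 ^ b * y % 3 = 1)
    (hc : 2 ^ c * y % 3 = 1) (t : ℕ) :
    pick k Q tb a b c (y + 3 ^ (k + 1) * t) = pick k Q tb a b c y := by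
  unfold pick
  rw [cst_per hk ha, cst_per hk hb, cst_per hk hc]

theorem mod_three_shift (y t : ℕ) : (y + 3 ^ (k + 1) * t) % 3 = y % 3 := by
  rw [pow_succ, show 3 ^ k * 3 * t = 3 * (3 ^ k * t) by ring, Nat.add_mul_mod_self_left]

theorem hh_per (hk : 1 ≤ k) {y : ℕ} (hy : y % 3 ≠ 0) (t : ℕ) :
    hh k Q tb (y + 3 ^ (k + 1) * t) = hh k Q tb y := by
  unfold hh
  rw [mod_three_shift]
  rcases (by omega : y % 3 = 1 ∨ y % 3 = 2) with h | h
  · obtain ⟨a1, a2, a3⟩ := two_pow_mod.1 h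
    rw [if_pos h, if_pos h, cst_per hk a1, cst_per hk a2, cst_per hk a3]
  · obtain ⟨a1, a2, a3⟩ := two_pow_mod.2 h
    rw [if_neg (by omega), if_neg (by omega), cst_per hk a1, cst_per hk a2, cst_per hk a3]

/-- properties of the chosen letter -/
theorem pol_spec (htb : ∀ c, Q * 6 + tb c < 1000000) {y : ℕ} (hy : y % 3 ≠ 0) :
    Adm (pol k Q tb y) y ∧ hh k Q tb y = Q * pol k Q tb y + tb (ch (pol k Q tb y) y % 3 ^ k) ∧
      hh k Q tb y < 1000000 := by
  -- the smaller admissible letter is cheap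
  obtain ⟨b1, b2, b3, b4⟩ := (lo_hi hy).1
  have hcheap : ∀ j, j ≤ 6 → ch j y % 3 ≠ 0 → cst k Q tb j y < 1000000 := by
    intro j hj h
    unfold cst
    rw [if_neg h]
    have := htb (ch j y % 3 ^ k)
    have : Q * j ≤ Q * 6 := Nat.mul_le_mul_left _ hj
    omega
  have hlo := hcheap _ b2 b4
  have hlo9 : lo y % 2 = 0 ↔ y % 3 = 1 := by
    clear b1 b2 b3 b4 hlo hcheap
    have h3 : y % 3 = (y % 9) % 3 := by omega
    have h9 : y % 9 < 9 := Nat.mod_lt _ (by norm_num)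
    rw [h3] at hy ⊢
    unfold lo
    generalize y % 9 = z at hy h9 ⊢
    interval_cases z <;> simp_all
  rcases (by omega : y % 3 = 1 ∨ y % 3 = 2) with h | h
  · obtain ⟨a1, a2, a3⟩ := two_pow_mod.1 h
    have hp := pick_spec (k := k) (Q := Q) (tb := tb) 2 4 6 y
    have e1 : pol k Q tb y = pick k Q tb 2 4 6 y := by unfold pol; rw [if_pos h]
    have e2 : hh k Q tb y = min (cst k Q tb 2 y) (min (cst k Q tb 4 y) (cst k Q tb 6 y)) := by
      unfold hh; rw [if_pos h]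
    have hlt : hh k Q tb y < 1000000 := by
      have h2 : lo y = 2 ∨ lo y = 4 ∨ lo y = 6 := by
        have := hlo9.2 h; omega
      rw [e2]
      rcases h2 with h2 | h2 | h2 <;> rw [h2] at hlo
      · exact lt_of_le_of_lt (min_le_left _ _) hlo
      · exact lt_of_le_of_lt ((min_le_right _ _).trans (min_le_left _ _)) hlo
      · exact lt_of_le_of_lt ((min_le_right _ _).trans (min_le_right _ _)) hlo
    rw [e1]
    rw [e2, ← hp.2] at hlt ⊢
    have hne : ch (pick k Q tb 2 4 6 y) y % 3 ≠ 0 := by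
      intro h0
      unfold cst at hlt
      rw [if_pos h0] at hlt
      omega
    refine ⟨?_, ?_, hlt⟩
    · rcases hp.1 with h3 | h3 | h3 <;> rw [h3] at hne ⊢
      · exact ⟨by norm_num, by norm_num, a1, hne⟩
      · exact ⟨by norm_num, by norm_num, a2, hne⟩
      · exact ⟨by norm_num, by norm_num, a3, hne⟩
    · unfold cst
      rw [if_neg hne]
  · obtain ⟨a1, a2, a3⟩ := two_pow_mod.2 h
    have hp := pick_spec (k := k) (Q := Q) (tb := tb) 1 3 5 y
    have e1 : pol k Q tb y = pick k Q tb 1 3 5 y := by unfold pol; rw [if_neg (by omega)]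
    have e2 : hh k Q tb y = min (cst k Q tb 1 y) (min (cst k Q tb 3 y) (cst k Q tb 5 y)) := by
      unfold hh; rw [if_neg (by omega)]
    have hlt : hh k Q tb y < 1000000 := by
      have h2 : lo y = 1 ∨ lo y = 3 ∨ lo y = 5 := by
        have : ¬ lo y % 2 = 0 := fun h0 => by have := hlo9.1 h0; omega
        omega
      rw [e2]
      rcases h2 with h2 | h2 | h2 <;> rw [h2] at hlo
      · exact lt_of_le_of_lt (min_le_left _ _) hlo
      · exact lt_of_le_of_lt ((min_le_right _ _).trans (min_le_left _ _)) hlo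
      · exact lt_of_le_of_lt ((min_le_right _ _).trans (min_le_right _ _)) hlo
    rw [e1]
    rw [e2, ← hp.2] at hlt ⊢
    have hne : ch (pick k Q tb 1 3 5 y) y % 3 ≠ 0 := by
      intro h0
      unfold cst at hlt
      rw [if_pos h0] at hlt
      omega
    refine ⟨?_, ?_, hlt⟩
    · rcases hp.1 with h3 | h3 | h3 <;> rw [h3] at hne ⊢
      · exact ⟨by norm_num, by norm_num, a1, hne⟩
      · exact ⟨by norm_num, by norm_num, a2, hne⟩
      · exact ⟨by norm_num, by norm_num, a3, hne⟩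
    · unfold cst
      rw [if_neg hne]

/-- **certificate from a table** -/
theorem cert_of_table (hk : 1 ≤ k) {V3 : ℕ} (htb : ∀ c, Q * 6 + tb c < 1000000)
    (hchk : ∀ c, c < 3 ^ k → c % 3 ≠ 0 →
      hh k Q tb c + hh k Q tb (c + 3 ^ k) + hh k Q tb (c + 3 ^ k * 2) ≤ 3 * tb c + V3) :
    Cert k Q V3 1000000 (pol k Q tb) (hh k Q tb) (fun c => tb (c % 3 ^ k)) where
  hk := hk
  rule :=
    { per := by
        intro y t hy
        unfold pol
        rw [mod_three_shift]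
        rcases (by omega : y % 3 = 1 ∨ y % 3 = 2) with h | h
        · obtain ⟨a1, a2, a3⟩ := two_pow_mod.1 h
          rw [if_pos h, if_pos h, pick_per hk a1 a2 a3]
        · obtain ⟨a1, a2, a3⟩ := two_pow_mod.2 h
          rw [if_neg (by omega), if_neg (by omega), pick_per hk a1 a2 a3]
      adm := fun y hy => (pol_spec htb hy).1 }
  hh := fun y hy => (pol_spec htb hy).2.1
  hHm := fun y hy => (pol_spec htb hy).2.2.le
  ineq := by
    intro c hc
    obtain ⟨c0, q, hc0, rfl⟩ : ∃ c0 q, c0 < 3 ^ k ∧ c = c0 + 3 ^ k * q :=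
      ⟨c % 3 ^ k, c / 3 ^ k, Nat.mod_lt _ (by positivity), (Nat.mod_add_div c _).symm⟩
    obtain ⟨k', hk'⟩ : ∃ k', k = k' + 1 := ⟨k - 1, by omega⟩
    have hu : ∀ t, (c0 + 3 ^ k * t) % 3 = c0 % 3 := by
      intro t
      rw [hk', pow_succ, show 3 ^ k' * 3 * t = 3 * (3 ^ k' * t) by ring, Nat.add_mul_mod_self_left]
    rw [hu] at hc
    have hG : ∀ d, hh k Q tb (c0 + 3 ^ k * (d + 3)) = hh k Q tb (c0 + 3 ^ k * d) := by
      intro d
      have e : c0 + 3 ^ k * (d + 3) = (c0 + 3 ^ k * d) + 3 ^ (k + 1) * 1 := by rw [pow_succ]; ring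
      rw [e, hh_per hk (by rw [hu]; exact hc)]
    have h1 := sum_affine 1 q (by norm_num : Nat.Coprime 1 3)
      (fun d => hh k Q tb (c0 + 3 ^ k * d)) hG
    simp only [sum_range_succ, range_zero, sum_empty, zero_add, one_mul, mul_zero, add_zero,
      mul_one] at h1
    have e1 : c0 + 3 ^ k * q + 3 ^ k = c0 + 3 ^ k * (1 + q) := by ring
    have e2 : c0 + 3 ^ k * q + 3 ^ k * 2 = c0 + 3 ^ k * (2 + q) := by ring
    have h2 := hchk c0 hc0 hc
    have e3 : (c0 + 3 ^ k * q) % 3 ^ k = c0 := by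
      rw [Nat.add_mul_mod_self_left, Nat.mod_eq_of_lt hc0]
    rw [e1, e2]
    simp only [e3]
    omega

end St

end UKL
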