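import Mathlib
import Pool.Agent.Lib_helper80.St.StC
import Pool.Agent.Lib_helper80.St.Chk0
import Pool.Agent.Lib_helper80.St.Chk1
import Pool.Agent.Lib_helper80.St.Chk2
import Pool.Agent.Lib_helper80.St.Chk3
import Pool.Agent.Lib_helper80.St.Chk4

/-!
# Stopping times: the certificate
-/

namespace UKL

namespace St

namespace Tab

theorem frc_eq (n : ℕ) (f : ℕ → ℕ) : frc n f = f n := by cases n <;> rfl

theorem frcB_eq (n : ℕ) (f : ℕ → Bool) : frcB n f = f n := by cases n <;> rfl

theorem tab_lt (c : ℕ) : tab c < 4096 := by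
  unfold tab
  rw [frc_eq]
  exact Nat.mod_lt _ (by norm_num)

theorem mn_eq (a b : ℕ) : mn a b = min a b := by
  unfold mn
  rw [frc_eq, frc_eq]
  by_cases h : a ≤ b
  · rw [Nat.ble_eq_true_of_le h, cond_true, min_eq_left h]
  · rw [min_eq_right (by omega)]
    have : Nat.ble a b = false := by
      rw [Bool.eq_false_iff]
      intro h'
      exact h (Nat.le_of_ble_eq_true h')
    rw [this, cond_false]

theorem cK_eq (m q y j : ℕ) (hm : m = 2 ^ j) (hq : q = 256 * j) :
    cK m q y = cst 10 256 tab j y := by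
  unfold cK cst ch
  rw [frc_eq]
  have e1 : Nat.div (Nat.sub (Nat.mul m y) 1) 3 = (2 ^ j * y - 1) / 3 := by rw [hm]; rfl
  rw [e1]
  have e2 : ∀ z, Nat.beq (Nat.mod z 3) 0 = decide (z % 3 = 0) := by
    intro z
    rw [Bool.eq_iff_iff, Nat.beq_eq, decide_eq_true_iff]
    rfl
  rw [e2]
  have e3 : ∀ z, Nat.mod z 59049 = z % 3 ^ 10 := by
    intro z
    have : (3 : ℕ) ^ 10 = 59049 := by norm_num
    rw [this]; rfl
  rw [e3, hq]
  by_cases h : (2 ^ j * y - 1) / 3 % 3 = 0
  · rw [if_pos h, decide_eq_true h]; rfl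
  · rw [if_neg h, decide_eq_false h]; rfl

theorem hK_eq (y : ℕ) : hK y = hh 10 256 tab y := by
  unfold hK hh
  rw [frc_eq, cK_eq 4 512 y 2 (by norm_num) (by norm_num),
    cK_eq 16 1024 y 4 (by norm_num) (by norm_num), cK_eq 64 1536 y 6 (by norm_num) (by norm_num),
    cK_eq 2 256 y 1 (by norm_num) (by norm_num), cK_eq 8 768 y 3 (by norm_num) (by norm_num),
    cK_eq 32 1280 y 5 (by norm_num) (by norm_num)]
  simp only [mn_eq]
  have e2 : Nat.beq (Nat.mod y 3) 1 = decide (y % 3 = 1) := by
    rw [Bool.eq_iff_iff, Nat.beq_eq, decide_eq_true_iff]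
    rfl
  rw [e2]
  by_cases h : y % 3 = 1
  · rw [if_pos h, decide_eq_true h]; rfl
  · rw [if_neg h, decide_eq_false h]; rfl

theorem chk_spec {c : ℕ} (h : chk c = true) :
    hh 10 256 tab c + hh 10 256 tab (c + 3 ^ 10) + hh 10 256 tab (c + 3 ^ 10 * 2)
      ≤ 3 * tab c + 1399 := by
  unfold chk at h
  have h1 := Nat.le_of_ble_eq_true h
  rw [hK_eq, hK_eq, hK_eq] at h1
  have e1 : Nat.add c 59049 = c + 3 ^ 10 := by norm_num
  have e2 : Nat.add c 118098 = c + 3 ^ 10 * 2 := by norm_num
  rw [e1, e2] at h1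
  have h2 : hh 10 256 tab c + (hh 10 256 tab (c + 3 ^ 10) + hh 10 256 tab (c + 3 ^ 10 * 2))
      ≤ 3 * tab c + 1399 := h1
  rw [add_assoc]
  exact h2

theorem allR_spec : ∀ (k q : ℕ), allR k q = true → ∀ i, i < 2 ^ k → chk2 (q + i) = true := by
  intro k
  induction k with
  | zero =>
    intro q h i hi
    have : i = 0 := by simpa using hi
    subst this
    exact h
  | succ k ih =>
    intro q h i hi
    rw [allR, frcB_eq] at h
    have h1 : allR k q = true := by
      by_contra hc
      rw [Bool.not_eq_true] at hc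
      rw [hc] at h
      simp at h
    rw [h1, cond_true] at h
    have h2 : allR k (q + 2 ^ k) = true := h
    by_cases hlt : i < 2 ^ k
    · exact ih q h1 i hlt
    · have := ih (q + 2 ^ k) h2 (i - 2 ^ k) (by rw [pow_succ] at hi; omega)
      rwa [show q + 2 ^ k + (i - 2 ^ k) = q + i by omega] at this

theorem chk2_all (q : ℕ) (hq : q < 19683) : chk2 q = true := by
  have key : ∀ b, allR 11 (2048 * b) = true → 2048 * b ≤ q → q < 2048 * b + 2048 →
      chk2 q = true := by
    intro b hb h1 h2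
    have := allR_spec 11 (2048 * b) hb (q - 2048 * b) (by norm_num; omega)
    rwa [show 2048 * b + (q - 2048 * b) = q by omega] at this
  have hb : q / 2048 < 10 := by omega
  have h1 : 2048 * (q / 2048) ≤ q := Nat.mul_div_le q 2048
  have h2 : q < 2048 * (q / 2048) + 2048 := by omega
  refine key (q / 2048) ?_ h1 h2
  generalize q / 2048 = b at hb
  interval_cases b
  · exact ok0
  · exact ok1
  · exact ok2
  · exact ok3
  · exact ok4
  · exact ok5
  · exact ok6
  · exact ok7
  · exact ok8
  · exact ok9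

theorem check_all (c : ℕ) (hc : c < 3 ^ 10) (hc3 : c % 3 ≠ 0) :
    hh 10 256 tab c + hh 10 256 tab (c + 3 ^ 10) + hh 10 256 tab (c + 3 ^ 10 * 2)
      ≤ 3 * tab c + 1399 := by
  have h59 : c < 59049 := by norm_num at hc; exact hc
  have hq : c / 3 < 19683 := by omega
  have h := chk2_all (c / 3) hq
  unfold chk2 at h
  have hb : Nat.ble 19683 (c / 3) = false := by
    rw [Bool.eq_false_iff]
    intro h'
    have := Nat.le_of_ble_eq_true h'
    omega
  rw [hb, cond_false] at h
  have h1 : chk (Nat.succ (Nat.mul 3 (c / 3))) = true := by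
    by_contra hcon
    rw [Bool.not_eq_true] at hcon
    rw [hcon] at h
    simp at h
  rw [h1, cond_true] at h
  have h2 : chk (Nat.succ (Nat.succ (Nat.mul 3 (c / 3)))) = true := by
    by_contra hcon
    rw [Bool.not_eq_true] at hcon
    rw [hcon] at h
    simp at h
  rcases (by omega : c % 3 = 1 ∨ c % 3 = 2) with h3 | h3
  · have e : Nat.succ (Nat.mul 3 (c / 3)) = c := by
      show 3 * (c / 3) + 1 = c
      omega
    rw [e] at h1
    exact chk_spec h1
  · have e : Nat.succ (Nat.succ (Nat.mul 3 (c / 3))) = c := by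
      show 3 * (c / 3) + 1 + 1 = c
      omega
    rw [e] at h2
    exact chk_spec h2

end Tab

/-- the certificate -/
theorem cert11 : Cert 10 256 1399 1000000 (pol 10 256 Tab.tab) (hh 10 256 Tab.tab)
    (fun c => Tab.tab (c % 3 ^ 10)) :=
  cert_of_table (by norm_num) (fun c => by have := Tab.tab_lt c; omega) Tab.check_all

end St

end UKL
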